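import Mathlib

set_option autoImplicit false
set_option maxRecDepth 100000

namespace Pool.Agent.Results.MP_405fb9_co.Wagner

variable {V : Type} [Fintype V] [DecidableEq V]

/-- D is a dominating set of the subgraph of G induced on W. -/
def Dom (G : SimpleGraph V) (W D : Finset V) : Prop :=
  D ⊆ W ∧ ∀ v ∈ W, v ∉ D → ∃ u ∈ D, G.Adj v u

/-- The domination number of the subgraph of G induced on W. -/
noncomputable def gamma (G : SimpleGraph V) (W : Finset V) : ℕ :=
  sInf {k | ∃ D, Dom G W D ∧ D.card = k}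

/-- D is a minimum dominating set of the subgraph of G induced on W. -/
def GammaSet (G : SimpleGraph V) (W D : Finset V) : Prop := Dom G W D ∧ D.card = gamma G W

def HypoUD (G : SimpleGraph V) : Prop :=
  (∃ D D', D ≠ D' ∧ GammaSet G Finset.univ D ∧ GammaSet G Finset.univ D') ∧
    ∀ v, ∃! D, GammaSet G (Finset.univ.erase v) D

def Bicritical (G : SimpleGraph V) : Prop :=
  ∀ S : Finset V, S.card = 2 → gamma G (Finset.univ \ S) < gamma G Finset.univ

def W8 : SimpleGraph (Fin 8) where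
  Adj a b := a - b = 1 ∨ a - b = 4 ∨ a - b = 7
  symm := ⟨by decide⟩
  loopless := ⟨by decide⟩

instance : DecidableRel W8.Adj := fun a b => inferInstanceAs (Decidable (a - b = 1 ∨ a - b = 4 ∨ a - b = 7))

instance (W D : Finset (Fin 8)) : Decidable (Dom W8 W D) :=
  inferInstanceAs (Decidable (D ⊆ W ∧ ∀ v ∈ W, v ∉ D → ∃ u ∈ D, W8.Adj v u))

theorem gamma_eq (G : SimpleGraph V) (W : Finset V) (k : ℕ) (h1 : ∃ D, Dom G W D ∧ D.card = k)
    (h2 : ∀ D, Dom G W D → k ≤ D.card) : gamma G W = k := by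
  apply le_antisymm (Nat.sInf_le h1)
  apply le_csInf ⟨k, h1⟩
  rintro _ ⟨D, hD, rfl⟩
  exact h2 D hD

theorem g3 : gamma W8 Finset.univ = 3 :=
  gamma_eq _ _ _ ⟨{0, 1, 2}, by decide +kernel, by decide +kernel⟩ (by decide +kernel)

theorem g2 (v : Fin 8) : gamma W8 (Finset.univ.erase v) = 2 :=
  gamma_eq _ _ _ ⟨{v + 3, v + 5}, by revert v; decide +kernel, by revert v; decide +kernel⟩
    (by revert v; decide +kernel)

theorem result : ∃ (n : ℕ) (G : SimpleGraph (Fin n)), 3 ≤ n ∧ Bicritical G ∧ HypoUD G := by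
  refine ⟨8, W8, by norm_num, ?_, ⟨{0, 1, 2}, {1, 2, 3}, by decide +kernel, ?_, ?_⟩, fun v => ?_⟩
  · intro S hS
    rw [g3]
    have : ∀ S : Finset (Fin 8), S.card = 2 → ∃ a b : Fin 8, Dom W8 (Finset.univ \ S) {a, b} := by
      decide +kernel
    obtain ⟨a, b, h⟩ := this S hS
    have h2 : gamma W8 (Finset.univ \ S) ≤ ({a, b} : Finset (Fin 8)).card := Nat.sInf_le ⟨_, h, rfl⟩
    have h3 := Finset.card_le_two (a := a) (b := b)
    omega
  · exact ⟨by decide +kernel, by rw [g3]; decide +kernel⟩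
  · exact ⟨by decide +kernel, by rw [g3]; decide +kernel⟩
  · refine ⟨{v + 3, v + 5}, ⟨by revert v; decide +kernel, by rw [g2]; revert v; decide +kernel⟩, ?_⟩
    rintro D ⟨h1, h2⟩
    rw [g2] at h2
    have : ∀ (v : Fin 8) (D : Finset (Fin 8)), D.card = 2 → Dom W8 (Finset.univ.erase v) D →
        D = {v + 3, v + 5} := by decide +kernel
    exact this v D h2 h1

end Pool.Agent.Results.MP_405fb9_co.Wagner
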